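import Pool.Agent.Helper18.PS.St

/-!
# Project PS, module C2: numbers divisible by the square of a large prime
-/

set_option autoImplicit false

namespace Pool.Agent.Helper69.PS

open Finset
open Nat (totient)
open Pool.Agent.Helper18.PS

private lemma mult (N d : ℕ) : (((Icc 1 N).filter fun n => d ∣ n).card : ℝ) ≤ N * ((d : ℝ))⁻¹ := by
  have e : Icc 1 N = Ioc 0 N := by
    ext n
    simp [Nat.succ_le_iff]
  rw [e, Nat.Ioc_filter_dvd_card_eq_div, ← div_eq_mul_inv]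
  exact Nat.cast_div_le

/-- C2. -/
theorem hC2 : StC2 := by
  intro y N hy
  classical
  have hsub : ((Icc 1 N).filter (fun n => ∃ p : ℕ, p.Prime ∧ y < p ∧ p ^ 2 ∣ n)) ⊆
      (Ioc y N).biUnion fun p => (Icc 1 N).filter fun n => p ^ 2 ∣ n := by
    intro n hn
    rw [mem_filter, mem_Icc] at hn
    obtain ⟨⟨h1, h2⟩, p, hp, hyp, hd⟩ := hn
    have h3 : p ^ 2 ≤ n := Nat.le_of_dvd h1 hd
    have h4 : p ≤ p ^ 2 := Nat.le_self_pow two_ne_zero p
    rw [mem_biUnion]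
    exact ⟨p, mem_Ioc.2 ⟨hyp, by omega⟩, mem_filter.2 ⟨mem_Icc.2 ⟨h1, h2⟩, hd⟩⟩
  have h1 : (((Icc 1 N).filter (fun n => ∃ p : ℕ, p.Prime ∧ y < p ∧ p ^ 2 ∣ n)).card : ℝ) ≤
      ∑ p ∈ Ioc y N, (N : ℝ) * (((p : ℝ)) ^ 2)⁻¹ := by
    calc (((Icc 1 N).filter (fun n => ∃ p : ℕ, p.Prime ∧ y < p ∧ p ^ 2 ∣ n)).card : ℝ)
        ≤ (((Ioc y N).biUnion fun p => (Icc 1 N).filter fun n => p ^ 2 ∣ n).card : ℝ) := by
          exact_mod_cast card_le_card hsub
      _ ≤ ∑ p ∈ Ioc y N, (((Icc 1 N).filter fun n => p ^ 2 ∣ n).card : ℝ) := by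
          exact_mod_cast card_biUnion_le
      _ ≤ ∑ p ∈ Ioc y N, (N : ℝ) * (((p : ℝ)) ^ 2)⁻¹ := by
          refine sum_le_sum fun p _ => ?_
          have := mult N (p ^ 2)
          push_cast at this
          exact this
  refine h1.trans ?_
  rw [← mul_sum, div_eq_mul_inv]
  refine mul_le_mul_of_nonneg_left ?_ (Nat.cast_nonneg N)
  rcases le_or_gt y N with h | h
  · have h2 := sum_Ioc_inv_sq_le_sub (α := ℝ) (k := y) (n := N) (by omega) h
    refine h2.trans ?_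
    have h3 : (0 : ℝ) ≤ (N : ℝ)⁻¹ := by positivity
    linarith
  · rw [Ioc_eq_empty (by omega), sum_empty]
    positivity

end Pool.Agent.Helper69.PS
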